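import Mathlib
import Pool.Agent.W232.CatCheck
import Pool.Agent.W232.CatPair

set_option autoImplicit false

namespace Pool.Agent.Results.MP_ae7dce_co.SevenFour

/-- A phylogenetic tree of size `n`: a finite tree in which every vertex has degree one or three,
and whose vertices of degree one (the leaves) are labelled bijectively by `Fin n`. -/
structure PhyloTree (n : ℕ) where
  /-- the vertices -/
  V : Type
  finite : Finite V
  /-- the tree -/
  G : SimpleGraph V
  isTree : G.IsTree
  degree : ∀ v, (G.neighborSet v).ncard = 1 ∨ (G.neighborSet v).ncard = 3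
  /-- the leaf with a given label -/
  leaf : Fin n → V
  leaf_injective : Function.Injective leaf
  leaf_range : Set.range leaf = {v | (G.neighborSet v).ncard = 1}

/-- The set `𝔓(T)` of the partitions (as equivalence relations) of the set of labels which arise
from `T` by deleting a set of edges: two labels are in the same class if and only if the leaves
with these labels lie in the same component of the remaining graph `H`. -/
def PhyloTree.partitions {n : ℕ} (T : PhyloTree n) : Set (Setoid (Fin n)) :=
  {r | ∃ H : SimpleGraph T.V, H ≤ T.G ∧ ∀ i j, r i j ↔ H.Reachable (T.leaf i) (T.leaf j)}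

/-- The number of the partitions into exactly `k` classes in `𝔓(T) ∩ 𝔓(F)`. -/
noncomputable def common {n : ℕ} (T F : PhyloTree n) (k : ℕ) : ℕ :=
  {r : Setoid (Fin n) | r ∈ T.partitions ∧ r ∈ F.partitions ∧ Nat.card (Quotient r) = k}.ncard

/-- `T` is a caterpillar: `n ≤ 2`, or the inner vertices (those of degree three) form a path on
`n - 2` vertices. -/
def PhyloTree.IsCaterpillar {n : ℕ} (T : PhyloTree n) : Prop :=
  n ≤ 2 ∨ Nonempty (T.G.induce {v | (T.G.neighborSet v).ncard = 3} ≃g SimpleGraph.pathGraph (n - 2))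

/-- The minimum of `|𝔓(T) ∩ 𝔓(F) ∩ 𝔓_{n,k}|` over all pairs of phylogenetic trees. -/
noncomputable def s (n k : ℕ) : ℕ := sInf {m | ∃ T F : PhyloTree n, m = common T F k}

/-- The minimum of `|𝔓(T) ∩ 𝔓(F) ∩ 𝔓_{n,k}|` over all pairs of caterpillars. -/
noncomputable def c (n k : ℕ) : ℕ :=
  sInf {m | ∃ T F : PhyloTree n, T.IsCaterpillar ∧ F.IsCaterpillar ∧ m = common T F k}

section sufficiency

/-- the classes with at least two elements occupy different parts of the spine -/
def Conv {n : ℕ} (a : Fin n → ℕ) (r : Setoid (Fin n)) : Prop :=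
  ∀ i j k l, r i j → i ≠ j → r k l → k ≠ l → ¬ r i k → ¬ (a i ≤ a k ∧ a k ≤ a j)

/-- the vertex `v` belongs to the class of `i` -/
def Bel {n : ℕ} (T : PhyloTree n) (p : ℕ → T.V) (m : ℕ) (a : Fin n → ℕ) (r : Setoid (Fin n))
    (i : Fin n) (v : T.V) : Prop :=
  (∃ j, r i j ∧ v = T.leaf j) ∨
    ∃ x, x < m ∧ v = p x ∧ ∃ j k, r i j ∧ r i k ∧ j ≠ k ∧ a j ≤ x ∧ x ≤ a k

theorem conv_mem {n : ℕ} (T : PhyloTree n) (p : ℕ → T.V) (m : ℕ)
    (hp : ∀ x y, x < m → y < m → p x = p y → x = y)
    (hpl : ∀ x i, x < m → p x ≠ T.leaf i)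
    (hadj : ∀ x, x + 1 < m → T.G.Adj (p x) (p (x + 1)))
    (a : Fin n → ℕ) (ham : ∀ i, a i < m) (ha : ∀ i, T.G.Adj (T.leaf i) (p (a i)))
    (r : Setoid (Fin n)) (hr : Conv a r) : r ∈ T.partitions := by
  -- uniqueness of the class
  have huniq : ∀ i i' v, Bel T p m a r i v → Bel T p m a r i' v → r i i' := by
    rintro i i' v (⟨j, hj, rfl⟩ | ⟨x, hx, rfl, j, k, hj, hk, hjk, h1, h2⟩)
      (⟨j', hj', hv⟩ | ⟨x', hx', hv, j', k', hj', hk', hjk', h1', h2'⟩)
    · have := T.leaf_injective hv
      subst this
      exact r.trans hj (r.symm hj')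
    · exact absurd hv.symm (hpl _ _ hx')
    · exact absurd hv (hpl _ _ hx)
    · have := hp _ _ hx hx' hv
      subst this
      by_contra hcon
      have n1 : ¬ r j j' := fun h => hcon (r.trans hj (r.trans h (r.symm hj')))
      have n2 : ¬ r j' j := fun h => n1 (r.symm h)
      rcases le_total (a j) (a j') with hle | hle
      · exact hr j k j' k' (r.trans (r.symm hj) hk) hjk (r.trans (r.symm hj') hk') hjk' n1
          ⟨hle, h1'.trans h2⟩
      · exact hr j' k' j k (r.trans (r.symm hj') hk') hjk' (r.trans (r.symm hj) hk) hjk n2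
          ⟨hle, h1.trans h2'⟩
  have hinv : ∀ i i' v, r i i' → Bel T p m a r i v → Bel T p m a r i' v := by
    rintro i i' v hii (⟨j, hj, rfl⟩ | ⟨x, hx, rfl, j, k, hj, hk, hjk, h1, h2⟩)
    · exact Or.inl ⟨j, r.trans (r.symm hii) hj, rfl⟩
    · exact Or.inr ⟨x, hx, rfl, j, k, r.trans (r.symm hii) hj, r.trans (r.symm hii) hk, hjk, h1, h2⟩
  let H : SimpleGraph T.V :=
    { Adj := fun u v => T.G.Adj u v ∧ ∃ i, Bel T p m a r i u ∧ Bel T p m a r i v
      symm := ⟨fun u v h => ⟨h.1.symm, h.2.imp fun i hi => ⟨hi.2, hi.1⟩⟩⟩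
      loopless := ⟨fun u h => T.G.loopless.irrefl u h.1⟩ }
  refine ⟨H, fun u v h => h.1, ?_⟩
  intro i j
  constructor
  · -- the classes are connected
    have key : ∀ i j, r i j → i ≠ j → a i ≤ a j → H.Reachable (T.leaf i) (T.leaf j) := by
      intro i j hij hne hle
      have e1 : H.Adj (T.leaf i) (p (a i)) :=
        ⟨ha i, i, Or.inl ⟨i, r.refl i, rfl⟩, Or.inr ⟨a i, ham i, rfl, i, j, r.refl i, hij, hne,
          le_rfl, hle⟩⟩
      have e2 : H.Adj (T.leaf j) (p (a j)) :=
        ⟨ha j, i, Or.inl ⟨j, hij, rfl⟩, Or.inr ⟨a j, ham j, rfl, i, j, r.refl i, hij, hne,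
          hle, le_rfl⟩⟩
      have e3 : ∀ d, a i + d ≤ a j → H.Reachable (p (a i)) (p (a i + d)) := by
        intro d
        induction d with
        | zero => intro _; exact SimpleGraph.Reachable.refl _
        | succ d ih =>
          intro hd
          refine (ih (by omega)).trans (SimpleGraph.Adj.reachable ?_)
          refine ⟨hadj _ (by have := ham j; omega), i, Or.inr ⟨a i + d, ?_, rfl, i, j, r.refl i,
            hij, hne, ?_, ?_⟩, Or.inr ⟨a i + d + 1, ?_, rfl, i, j, r.refl i, hij, hne, ?_, ?_⟩⟩
          · have := ham j; omega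
          · omega
          · omega
          · have := ham j; omega
          · omega
          · omega
      have e4 := e3 (a j - a i) (by omega)
      rw [Nat.add_sub_cancel' hle] at e4
      exact e1.reachable.trans (e4.trans e2.symm.reachable)
    intro hij
    by_cases hne : i = j
    · subst hne; exact SimpleGraph.Reachable.refl _
    · rcases le_total (a i) (a j) with h | h
      · exact key i j hij hne h
      · exact (key j i (r.symm hij) (Ne.symm hne) h).symm
  · intro hreach
    have hB : ∀ v, H.Reachable (T.leaf i) v → Bel T p m a r i v := by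
      intro v hv
      obtain ⟨w⟩ := hv
      have : ∀ (u v : T.V) (w : H.Walk u v), Bel T p m a r i u → Bel T p m a r i v := by
        intro u v w
        induction w with
        | nil => exact id
        | cons h _ ih =>
          intro hu
          obtain ⟨_, i', h1, h2⟩ := h
          exact ih (hinv i' i _ (huniq _ _ _ h1 hu) h2)
      exact this _ _ w (Or.inl ⟨i, r.refl i, rfl⟩)
    rcases hB _ hreach with ⟨j', hj', hv⟩ | ⟨x, hx, hv, _⟩
    · have := T.leaf_injective hv
      subst this
      exact hj'
    · exact absurd hv.symm (hpl _ _ hx)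

end sufficiency

section structure_of_caterpillars

open Pool.Agent.W232.Cat

theorem ncard_leaf {n : ℕ} (T : PhyloTree n) (i : Fin n) :
    (T.G.neighborSet (T.leaf i)).ncard = 1 := by
  have h : T.leaf i ∈ Set.range T.leaf := ⟨i, rfl⟩
  rw [T.leaf_range] at h
  exact h

theorem cat_struct (T : PhyloTree 7) (hc : T.IsCaterpillar) :
    ∃ (p : Fin 5 → T.V) (a : Fin 7 → Fin 5), Function.Injective p ∧ (∀ x i, p x ≠ T.leaf i) ∧
      (∀ x y : Fin 5, T.G.Adj (p x) (p y) ↔ ((x : ℕ) + 1 = y ∨ (y : ℕ) + 1 = x)) ∧
      (∀ i, T.G.Adj (T.leaf i) (p (a i))) ∧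
      ∀ v, (Finset.univ.filter (fun i => a i = v)).card =
        (Finset.univ.filter (fun i => a0 i = v)).card := by
  classical
  have hfin := T.finite
  unfold PhyloTree.IsCaterpillar at hc
  rcases hc with hc | hc
  · omega
  · obtain ⟨ψ'⟩ := hc
    let ψ : T.G.induce {v | (T.G.neighborSet v).ncard = 3} ≃g SimpleGraph.pathGraph 5 := ψ'
    let p : Fin 5 → T.V := fun x => (ψ.symm x).1
    have hp3 : ∀ x, (T.G.neighborSet (p x)).ncard = 3 := fun x => (ψ.symm x).2
    have hpinj : Function.Injective p := fun x y h => ψ.symm.injective (Subtype.ext h)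
    have hpl : ∀ x i, p x ≠ T.leaf i := by
      intro x i h
      have h1 := hp3 x
      rw [h, ncard_leaf] at h1
      omega
    have hpadj : ∀ x y : Fin 5, T.G.Adj (p x) (p y) ↔ ((x : ℕ) + 1 = y ∨ (y : ℕ) + 1 = x) := by
      intro x y
      rw [← SimpleGraph.pathGraph_adj, ← ψ.symm.map_adj_iff]
      rfl
    have hpsurj : ∀ v, (T.G.neighborSet v).ncard = 3 → ∃ x, p x = v := by
      intro v hv
      refine ⟨ψ ⟨v, hv⟩, ?_⟩
      change (ψ.symm (ψ ⟨v, hv⟩)).1 = v
      rw [RelIso.symm_apply_apply]
    have hleaf : ∀ v, (T.G.neighborSet v).ncard = 1 → ∃ i, T.leaf i = v := by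
      intro v hv
      have : v ∈ Set.range T.leaf := by rw [T.leaf_range]; exact hv
      exact this
    have hnb : ∀ i, ∃ x, T.G.neighborSet (T.leaf i) = {p x} := by
      intro i
      obtain ⟨w, hw⟩ := Set.ncard_eq_one.mp (ncard_leaf T i)
      have hadj : T.G.Adj (T.leaf i) w := by
        have : w ∈ T.G.neighborSet (T.leaf i) := by rw [hw]; rfl
        exact this
      rcases T.degree w with h1 | h3
      · exfalso
        obtain ⟨u, hu⟩ := Set.ncard_eq_one.mp h1
        have hu' : u = T.leaf i := by
          have : T.leaf i ∈ T.G.neighborSet w := hadj.symm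
          rw [hu] at this
          exact (Set.mem_singleton_iff.mp this).symm
        have hcl : ∀ (x y : T.V) (q : T.G.Walk x y), (x = T.leaf i ∨ x = w) →
            (y = T.leaf i ∨ y = w) := by
          intro x y q
          induction q with
          | nil => exact id
          | @cons x z y h _ ih =>
            intro hx
            apply ih
            rcases hx with rfl | rfl
            · right
              have : z ∈ T.G.neighborSet (T.leaf i) := h
              rw [hw] at this
              exact this
            · left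
              have : z ∈ T.G.neighborSet x := h
              rw [hu, hu'] at this
              exact this
        obtain ⟨q⟩ := T.isTree.1.preconnected (T.leaf i) (p 0)
        rcases hcl _ _ q (Or.inl rfl) with h | h
        · exact hpl 0 i h
        · have := hp3 0
          rw [h, h1] at this
          omega
      · obtain ⟨x, rfl⟩ := hpsurj w h3
        exact ⟨x, hw⟩
    choose a ha using hnb
    have haadj : ∀ i, T.G.Adj (T.leaf i) (p (a i)) := by
      intro i
      have : p (a i) ∈ T.G.neighborSet (T.leaf i) := by rw [ha i]; rfl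
      exact this
    refine ⟨p, a, hpinj, hpl, hpadj, haadj, ?_⟩
    intro v
    have hset : T.G.neighborSet (p v) =
        T.leaf '' ((Finset.univ.filter (fun i => a i = v) : Finset (Fin 7)) : Set (Fin 7)) ∪
        p '' ((Finset.univ.filter (fun y : Fin 5 => (v : ℕ) + 1 = y ∨ (y : ℕ) + 1 = v) :
          Finset (Fin 5)) : Set (Fin 5)) := by
      ext w
      simp only [Set.mem_union, Set.mem_image, Finset.coe_filter, Finset.mem_univ, true_and,
        Set.mem_ofPred_eq, SimpleGraph.mem_neighborSet]
      constructor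
      · intro hw
        rcases T.degree w with h1 | h3
        · obtain ⟨i, rfl⟩ := hleaf w h1
          left
          refine ⟨i, ?_, rfl⟩
          have : p v ∈ T.G.neighborSet (T.leaf i) := hw.symm
          rw [ha i] at this
          exact (hpinj (Set.mem_singleton_iff.mp this)).symm
        · obtain ⟨y, rfl⟩ := hpsurj w h3
          right
          exact ⟨y, (hpadj v y).mp hw, rfl⟩
      · rintro (⟨i, rfl, rfl⟩ | ⟨y, hy, rfl⟩)
        · exact (haadj i).symm
        · exact (hpadj v y).mpr hy
    have hcard := hp3 v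
    rw [hset, Set.ncard_union_eq, Set.ncard_image_of_injective _ T.leaf_injective,
      Set.ncard_image_of_injective _ hpinj, Set.ncard_coe_finset, Set.ncard_coe_finset] at hcard
    · have hdec : ∀ v : Fin 5, (Finset.univ.filter (fun i => a0 i = v)).card +
          (Finset.univ.filter (fun y : Fin 5 => (v : ℕ) + 1 = y ∨ (y : ℕ) + 1 = v)).card = 3 := by
        decide
      have := hdec v
      omega
    · rw [Set.disjoint_left]
      rintro _ ⟨i, _, rfl⟩ ⟨y, _, hy⟩
      exact hpl y i hy

end structure_of_caterpillars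

section counting

open Pool.Agent.W232.Cat

theorem finite_setoid : Finite (Setoid (Fin 7)) := by
  apply Finite.of_injective (fun r : Setoid (Fin 7) => (fun i j => r i j : Fin 7 → Fin 7 → Prop))
  intro r r' h
  ext i j
  exact iff_of_eq (congrFun (congrFun h i) j)

/-- the labelling with the class `A` and singletons -/
def gA (A : Finset (Fin 7)) (i : Fin 7) : Option {x : Fin 7 // x ∉ A} :=
  if h : i ∈ A then none else some ⟨i, h⟩

/-- the partition with the class `A` and singletons -/
def rA (A : Finset (Fin 7)) : Setoid (Fin 7) := Setoid.ker (gA A)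

theorem rA_iff (A : Finset (Fin 7)) (i j : Fin 7) : rA A i j ↔ i = j ∨ (i ∈ A ∧ j ∈ A) := by
  unfold rA
  rw [Setoid.ker_def]
  unfold gA
  by_cases hi : i ∈ A <;> by_cases hj : j ∈ A
  · simp [hi, hj]
  · simp only [hi, hj, dite_true, dite_false]
    constructor
    · intro h; exact absurd h (by simp)
    · rintro (rfl | h)
      · exact absurd hi hj
      · exact absurd h.2 (by simp)
  · simp only [hi, hj, dite_true, dite_false]
    constructor
    · intro h; exact absurd h (by simp)
    · rintro (rfl | h)
      · exact absurd hj hi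
      · exact absurd h.1 (by simp)
  · simp [hi, hj]

theorem rA_card (A : Finset (Fin 7)) (hA : A.card = 4) : Nat.card (Quotient (rA A)) = 4 := by
  have hs : Function.Surjective (gA A) := by
    rintro (_ | ⟨x, hx⟩)
    · obtain ⟨i, hi⟩ : A.Nonempty := by rw [← Finset.card_pos]; omega
      exact ⟨i, by simp [gA, hi]⟩
    · exact ⟨x, by simp [gA, hx]⟩
  unfold rA
  rw [Nat.card_congr (Setoid.quotientKerEquivOfSurjective _ hs), Nat.card_eq_fintype_card,
    Fintype.card_option, Fintype.card_subtype_compl, Fintype.card_fin, Fintype.card_coe, hA]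

theorem rA_inj (A B : Finset (Fin 7)) (hA : A.card = 4) (hB : B.card = 4) (h : rA A = rA B) :
    A = B := by
  have hsub : A ⊆ B := by
    intro i hi
    obtain ⟨j, hj, hne⟩ := Finset.exists_mem_ne (by omega : 1 < A.card) i
    have h1 : rA A i j := (rA_iff A i j).mpr (Or.inr ⟨hi, hj⟩)
    rw [h, rA_iff] at h1
    rcases h1 with h1 | h1
    · exact absurd h1.symm hne
    · exact h1.1
  exact Finset.eq_of_subset_of_card_le hsub (by omega)

theorem rA_conv (A : Finset (Fin 7)) (a : Fin 7 → ℕ) : Conv a (rA A) := by
  intro i j k l hij hne hkl hne' hik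
  rw [rA_iff] at hij hkl
  rcases hij with hij | hij
  · exact absurd hij hne
  · rcases hkl with hkl | hkl
    · exact absurd hkl hne'
    · exact absurd ((rA_iff A i k).mpr (Or.inr ⟨hij.1, hkl.1⟩)) hik

/-- the partitions with one class of size four and singletons -/
def base : Set (Setoid (Fin 7)) :=
  rA '' ((Finset.powersetCard 4 (Finset.univ : Finset (Fin 7)) : Finset (Finset (Fin 7))) :
    Set (Finset (Fin 7)))

theorem base_card : base.ncard = 35 := by
  unfold base
  rw [Set.InjOn.ncard_image, Set.ncard_coe_finset, Finset.card_powersetCard, Finset.card_univ,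
    Fintype.card_fin]
  · rfl
  · intro A hA B hB h
    rw [Finset.mem_coe, Finset.mem_powersetCard] at hA hB
    exact rA_inj A B hA.2 hB.2 h

/-- properties of the candidates -/
def Okc (c : (Fin 7 → Fin 4) × List ℕ × List ℕ) : Prop :=
    (∀ i j : Fin 7, c.1 i = c.1 j → i ≠ j → ((i.val ∈ c.2.1 ∧ j.val ∈ c.2.1) ∨
      (i.val ∈ c.2.2 ∧ j.val ∈ c.2.2))) ∧
    (∀ i j : Fin 7, i.val ∈ c.2.1 → j.val ∈ c.2.1 → c.1 i = c.1 j) ∧
    (∀ i j : Fin 7, i.val ∈ c.2.2 → j.val ∈ c.2.2 → c.1 i = c.1 j) ∧
    (∀ x : Fin 4, ∃ i, c.1 i = x) ∧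
    (∃ i j k l : Fin 7, i ≠ j ∧ k ≠ l ∧ c.1 i = c.1 j ∧ c.1 k = c.1 l ∧ c.1 i ≠ c.1 k) ∧
    sepL [(a0 0 : ℕ), a0 1, a0 2, a0 3, a0 4, a0 5, a0 6] c.2.1 c.2.2 = true

set_option synthInstance.maxSize 2000 in
instance (c : (Fin 7 → Fin 4) × List ℕ × List ℕ) : Decidable (Okc c) := by
  unfold Okc; infer_instance

theorem cands_facts : ∀ c ∈ cands, Okc c := by
  decide +kernel

theorem lk_spec (b : Fin 7 → Fin 5) (i : Fin 7) :
    lk [(b 0 : ℕ), b 1, b 2, b 3, b 4, b 5, b 6] i.val = b i := by
  fin_cases i <;> rfl

theorem sepL_conv (b : Fin 7 → Fin 5) (c : (Fin 7 → Fin 4) × List ℕ × List ℕ) (hc : c ∈ cands)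
    (h : sepL [(b 0 : ℕ), b 1, b 2, b 3, b 4, b 5, b 6] c.2.1 c.2.2 = true) :
    ∀ i j k l : Fin 7, c.1 i = c.1 j → i ≠ j → c.1 k = c.1 l → k ≠ l → c.1 i ≠ c.1 k →
      ¬ ((b i).val ≤ (b k).val ∧ (b k).val ≤ (b j).val) := by
  intro i j k l hij hne hkl hne' hik
  obtain ⟨h1, h2, h3, _⟩ := cands_facts c hc
  unfold sepL at h
  simp only [Bool.or_eq_true, List.all_eq_true, Nat.blt_eq] at h
  rcases h1 i j hij hne with ⟨m1, m2⟩ | ⟨m1, m2⟩ <;>
    rcases h1 k l hkl hne' with ⟨m3, m4⟩ | ⟨m3, m4⟩
  · exact absurd (h2 i k m1 m3) hik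
  · rcases h with h | h
    · have e := h _ m2 _ m3
      rw [lk_spec, lk_spec] at e
      omega
    · have e := h _ m1 _ m3
      rw [lk_spec, lk_spec] at e
      omega
  · rcases h with h | h
    · have e := h _ m3 _ m1
      rw [lk_spec, lk_spec] at e
      omega
    · have e := h _ m3 _ m2
      rw [lk_spec, lk_spec] at e
      omega
  · exact absurd (h3 i k m1 m3) hik

/-- two caterpillars have at least `36` common partitions with four classes -/
theorem cat_ge (T F : PhyloTree 7) (hT : T.IsCaterpillar) (hF : F.IsCaterpillar) :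
    36 ≤ common T F 4 := by
  obtain ⟨p, a, hp, hpl, hpadj, haadj, hfa⟩ := cat_struct T hT
  obtain ⟨p', b, hp', hpl', hpadj', hbadj, hfb⟩ := cat_struct F hF
  -- membership of convex partitions
  have memT : ∀ r : Setoid (Fin 7), Conv (fun i => (a i : ℕ)) r → r ∈ T.partitions := by
    intro r hr
    refine conv_mem T (fun x => p ⟨min x 4, by omega⟩) 5 ?_ ?_ ?_ (fun i => (a i : ℕ)) ?_ ?_ r hr
    · intro x y hx hy h
      have h1 := congrArg Fin.val (hp h)
      simp only at h1
      omega
    · intro x i _
      exact hpl _ i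
    · intro x hx
      rw [hpadj]
      left
      simp only
      omega
    · intro i
      exact (a i).isLt
    · intro i
      have : (⟨min (a i : ℕ) 4, by omega⟩ : Fin 5) = a i := by
        apply Fin.ext
        have := (a i).isLt
        simp only
        omega
      rw [this]
      exact haadj i
  have memF : ∀ r : Setoid (Fin 7), Conv (fun i => (b i : ℕ)) r → r ∈ F.partitions := by
    intro r hr
    refine conv_mem F (fun x => p' ⟨min x 4, by omega⟩) 5 ?_ ?_ ?_ (fun i => (b i : ℕ)) ?_ ?_ r hr
    · intro x y hx hy h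
      have h1 := congrArg Fin.val (hp' h)
      simp only at h1
      omega
    · intro x i _
      exact hpl' _ i
    · intro x hx
      rw [hpadj']
      left
      simp only
      omega
    · intro i
      exact (b i).isLt
    · intro i
      have : (⟨min (b i : ℕ) 4, by omega⟩ : Fin 5) = b i := by
        apply Fin.ext
        have := (b i).isLt
        simp only
        omega
      rw [this]
      exact hbadj i
  -- relabelling
  have hcardf : ∀ v : Fin 5, Fintype.card {i // a0 i = v} = Fintype.card {i // a i = v} := by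
    intro v
    rw [Fintype.card_subtype, Fintype.card_subtype, hfa v]
  let e : Fin 7 ≃ Fin 7 := Equiv.ofFiberEquiv (f := a0) (g := a)
    (fun v => Fintype.equivOfCardEq (hcardf v))
  have he : ∀ i, a (e i) = a0 i := fun i => Equiv.ofFiberEquiv_map _ i
  have hb' : ∀ v, (Finset.univ.filter (fun i => b (e i) = v)).card =
      (Finset.univ.filter (fun i => a0 i = v)).card := by
    intro v
    rw [← hfb v]
    apply Finset.card_bij (fun i _ => e i)
    · intro i hi
      rw [Finset.mem_filter] at hi ⊢
      exact ⟨Finset.mem_univ _, hi.2⟩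
    · intro i _ j _ h
      exact e.injective h
    · intro j hj
      rw [Finset.mem_filter] at hj
      refine ⟨e.symm j, ?_, e.apply_symm_apply j⟩
      rw [Finset.mem_filter, e.apply_symm_apply]
      exact ⟨Finset.mem_univ _, hj.2⟩
  obtain ⟨c, hc, hsep⟩ := chk_spec (fun i => b (e i)) hb'
  have convb := sepL_conv (fun i => b (e i)) c hc hsep
  obtain ⟨_, _, _, hsurj, ⟨i0, j0, k0, l0, hij0, hkl0, e1, e2, e3⟩, hsepa⟩ := cands_facts c hc
  have conva := sepL_conv a0 c hc hsepa
  let r : Setoid (Fin 7) := Setoid.ker (fun i => c.1 (e.symm i))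
  have hr : ∀ i j, r i j ↔ c.1 (e.symm i) = c.1 (e.symm j) := fun i j => Setoid.ker_def
  have hrT : r ∈ T.partitions := by
    apply memT
    intro i j k l hij hne hkl hne' hik
    rw [hr] at hij hkl hik
    have := conva (e.symm i) (e.symm j) (e.symm k) (e.symm l) hij
      (fun h => hne (e.symm.injective h)) hkl (fun h => hne' (e.symm.injective h)) hik
    rw [← he, ← he, ← he] at this
    simpa using this
  have hrF : r ∈ F.partitions := by
    apply memF
    intro i j k l hij hne hkl hne' hik
    rw [hr] at hij hkl hik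
    have := convb (e.symm i) (e.symm j) (e.symm k) (e.symm l) hij
      (fun h => hne (e.symm.injective h)) hkl (fun h => hne' (e.symm.injective h)) hik
    simpa using this
  have hrcard : Nat.card (Quotient r) = 4 := by
    have hs : Function.Surjective (fun i => c.1 (e.symm i)) := by
      intro x
      obtain ⟨i, hi⟩ := hsurj x
      exact ⟨e i, by simpa using hi⟩
    rw [Nat.card_congr (Setoid.quotientKerEquivOfSurjective _ hs), Nat.card_eq_fintype_card,
      Fintype.card_fin]
  have hrbase : r ∉ base := by
    rintro ⟨A, _, hA⟩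
    have g1 : r (e i0) (e j0) := by rw [hr]; simpa using e1
    have g2 : r (e k0) (e l0) := by rw [hr]; simpa using e2
    have g3 : ¬ r (e i0) (e k0) := by rw [hr]; simpa using e3
    rw [← hA, rA_iff] at g1 g2 g3
    rcases g1 with g1 | g1
    · exact hij0 (e.injective g1)
    · rcases g2 with g2 | g2
      · exact hkl0 (e.injective g2)
      · exact g3 (Or.inr ⟨g1.1, g2.1⟩)
  have hfin := finite_setoid
  have hsub : insert r base ⊆ {r : Setoid (Fin 7) | r ∈ T.partitions ∧ r ∈ F.partitions ∧
      Nat.card (Quotient r) = 4} := by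
    intro x hx
    rcases hx with rfl | ⟨A, hA, rfl⟩
    · exact ⟨hrT, hrF, hrcard⟩
    · rw [Finset.mem_coe, Finset.mem_powersetCard] at hA
      exact ⟨memT _ (rA_conv A _), memF _ (rA_conv A _), rA_card A hA.2⟩
  have h36 : (insert r base).ncard = 36 := by
    rw [Set.ncard_insert_of_notMem hrbase (Set.toFinite _), base_card]
  unfold common
  rw [← h36]
  exact Set.ncard_le_ncard hsub (Set.toFinite _)

theorem ncard_nb (par : Fin 12 → Fin 12) (v : Fin 12) :
    ((Gp par).neighborSet v).ncard = (Finset.univ.filter (fun w => (Gp par).Adj v w)).card := by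
  rw [← Set.ncard_coe_finset]
  congr 1
  ext w
  simp

theorem degT : ∀ v : Fin 12, (v.val < 5 ∧ (Finset.univ.filter (fun w => (Gp parT).Adj v w)).card = 3) ∨
    (∃ i, lf i = v) ∧ (Finset.univ.filter (fun w => (Gp parT).Adj v w)).card = 1 := by
  decide +kernel

theorem degF : ∀ v : Fin 12, (v.val < 5 ∧ (Finset.univ.filter (fun w => (Gp parF).Adj v w)).card = 3) ∨
    (∃ i, lf i = v) ∧ (Finset.univ.filter (fun w => (Gp parF).Adj v w)).card = 1 := by
  decide +kernel

theorem lf_inj : Function.Injective lf := by
  intro i j h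
  have := congrArg Fin.val h
  simp only [lf] at this
  apply Fin.ext
  omega

/-- the caterpillar -/
def T0 : PhyloTree 7 where
  V := Fin 12
  finite := inferInstance
  G := Gp parT
  isTree := isTree fitsT cardT
  degree := by
    intro v
    rw [ncard_nb]
    rcases degT v with h | h
    · exact Or.inr h.2
    · exact Or.inl h.2
  leaf := lf
  leaf_injective := lf_inj
  leaf_range := by
    ext v
    rw [Set.mem_range, Set.mem_ofPred_eq, ncard_nb]
    rcases degT v with h | h
    · rw [h.2]
      constructor
      · rintro ⟨i, hi⟩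
        have := h.1
        rw [← hi] at this
        simp only [lf] at this
        omega
      · intro h; omega
    · exact ⟨fun _ => h.2, fun _ => h.1⟩

/-- the other tree -/
def F0 : PhyloTree 7 where
  V := Fin 12
  finite := inferInstance
  G := Gp parF
  isTree := isTree fitsF cardF
  degree := by
    intro v
    rw [ncard_nb]
    rcases degF v with h | h
    · exact Or.inr h.2
    · exact Or.inl h.2
  leaf := lf
  leaf_injective := lf_inj
  leaf_range := by
    ext v
    rw [Set.mem_range, Set.mem_ofPred_eq, ncard_nb]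
    rcases degF v with h | h
    · rw [h.2]
      constructor
      · rintro ⟨i, hi⟩
        have := h.1
        rw [← hi] at this
        simp only [lf] at this
        omega
      · intro h; omega
    · exact ⟨fun _ => h.2, fun _ => h.1⟩

theorem adjT : ∀ x y : Fin 5, (Gp parT).Adj (Fin.castLE (by omega) x) (Fin.castLE (by omega) y) ↔
    (x.val + 1 = y.val ∨ y.val + 1 = x.val) := by
  decide +kernel

theorem cat0 : T0.IsCaterpillar := by
  right
  have hmem : ∀ x : Fin 5, (Fin.castLE (by omega) x : Fin 12) ∈
      {v : Fin 12 | ((Gp parT).neighborSet v).ncard = 3} := by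
    intro x
    rw [Set.mem_ofPred_eq, ncard_nb]
    rcases degT (Fin.castLE (by omega) x) with h | h
    · exact h.2
    · obtain ⟨⟨i, hi⟩, _⟩ := h
      have := congrArg Fin.val hi
      simp only [lf, Fin.val_castLE] at this
      omega
  have hbij : Function.Bijective (fun x : Fin 5 =>
      (⟨Fin.castLE (by omega) x, hmem x⟩ : {v : Fin 12 | ((Gp parT).neighborSet v).ncard = 3})) := by
    constructor
    · intro x y h
      have := congrArg (fun z => (Subtype.val z).val) h
      simp only [Fin.val_castLE] at this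
      exact Fin.ext this
    · rintro ⟨v, hv⟩
      rw [Set.mem_ofPred_eq, ncard_nb] at hv
      rcases degT v with h | h
      · exact ⟨⟨v.val, h.1⟩, by apply Subtype.ext; apply Fin.ext; rfl⟩
      · omega
  refine ⟨SimpleGraph.Iso.symm ⟨Equiv.ofBijective _ hbij, ?_⟩⟩
  intro x y
  rw [SimpleGraph.pathGraph_adj]
  exact adjT x y

/-- the two explicit trees have at most `35` common partitions with four classes -/
theorem pair_le : common T0 F0 4 ≤ 35 := by
  have hfin := finite_setoid
  unfold common
  rw [← base_card]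
  apply Set.ncard_le_ncard _ (Set.toFinite _)
  rintro r ⟨⟨H1, hH1, h1⟩, ⟨H2, hH2, h2⟩, h4⟩
  change SimpleGraph (Fin 12) at H1 H2
  change H1 ≤ Gp parT at hH1
  change H2 ≤ Gp parF at hH2
  have : Finite (Quotient r) := Nat.finite_of_card_ne_zero (by omega)
  have eq4 : Quotient r ≃ Fin 4 := Finite.equivFinOfCardEq h4
  let f : Fin 7 → Fin 4 := fun i => eq4 (Quotient.mk r i)
  have hf : ∀ i j, f i = f j ↔ r i j := by
    intro i j
    change eq4 _ = eq4 _ ↔ _
    rw [eq4.injective.eq_iff]
    exact Quotient.eq
  have hs : Function.Surjective f := by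
    intro x
    obtain ⟨q, hq⟩ := eq4.surjective x
    obtain ⟨i, hi⟩ := Quotient.exists_rep q
    exact ⟨i, by change eq4 _ = x; rw [hi, hq]⟩
  have hsing := single f (by
    intro i j k l hij hkl hik
    rw [hf] at hij hkl
    rw [Ne, hf] at hik
    unfold sh
    rw [Bool.and_eq_true]
    exact ⟨cross fitsF H2 hH2 i j k l ((h2 i j).mp hij) ((h2 k l).mp hkl)
      (fun h => hik ((h2 i k).mpr h)), cross fitsT H1 hH1 i j k l ((h1 i j).mp hij)
      ((h1 k l).mp hkl) (fun h => hik ((h1 i k).mpr h))⟩)
  -- the class with at least two elements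
  obtain ⟨i0, j0, hne0, he0⟩ : ∃ i j : Fin 7, i ≠ j ∧ f i = f j := by
    obtain ⟨i, j, h, h'⟩ := Fintype.exists_ne_map_eq_of_card_lt f (by simp)
    exact ⟨i, j, h, h'⟩
  refine ⟨Finset.univ.filter (fun i => f i = f i0), ?_, ?_⟩
  · rw [Finset.mem_coe, Finset.mem_powersetCard]
    refine ⟨Finset.subset_univ _, ?_⟩
    -- the other elements correspond to the other labels
    have hc : (Finset.univ.filter (fun i => ¬ f i = f i0)).card =
        ((Finset.univ : Finset (Fin 4)).erase (f i0)).card := by
      apply Finset.card_bij (fun i _ => f i)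
      · intro i hi
        rw [Finset.mem_filter] at hi
        rw [Finset.mem_erase]
        exact ⟨hi.2, Finset.mem_univ _⟩
      · intro i hi j hj hij
        by_contra hne
        rw [Finset.mem_filter] at hi
        exact hi.2 (hsing i0 j0 i j hne0 hne he0 hij).symm
      · intro x hx
        rw [Finset.mem_erase] at hx
        obtain ⟨i, hi⟩ := hs x
        refine ⟨i, ?_, hi⟩
        rw [Finset.mem_filter]
        exact ⟨Finset.mem_univ _, by rw [hi]; exact hx.1⟩
    rw [Finset.card_erase_of_mem (Finset.mem_univ _), Finset.card_univ, Fintype.card_fin] at hc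
    have := Finset.card_filter_add_card_filter_not (s := (Finset.univ : Finset (Fin 7)))
      (fun i => f i = f i0)
    rw [Finset.card_univ, Fintype.card_fin] at this
    omega
  · ext i j
    rw [rA_iff, Finset.mem_filter, Finset.mem_filter, ← hf]
    constructor
    · rintro (rfl | ⟨h5, h6⟩)
      · rfl
      · rw [h5.2, h6.2]
    · intro hij
      by_cases hne : i = j
      · exact Or.inl hne
      · right
        have := hsing i0 j0 i j hne0 hne he0 hij
        exact ⟨⟨Finset.mem_univ _, this.symm⟩, Finset.mem_univ _, by rw [← hij]; exact this.symm⟩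

end counting

/-- The smallest number of common partitions into `4` classes of two phylogenetic trees of size `7`
is smaller than that of two caterpillars of size `7`. -/
theorem result : s 7 4 < c 7 4 := by
  have h1 : s 7 4 ≤ 35 := by
    apply le_trans _ pair_le
    exact Nat.sInf_le ⟨T0, F0, rfl⟩
  have h2 : 36 ≤ c 7 4 := by
    have hne : {m | ∃ T F : PhyloTree 7, T.IsCaterpillar ∧ F.IsCaterpillar ∧
        m = common T F 4}.Nonempty := ⟨_, T0, T0, cat0, cat0, rfl⟩
    obtain ⟨T, F, hT, hF, h⟩ := Nat.sInf_mem hne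
    change 36 ≤ sInf _
    rw [h]
    exact cat_ge T F hT hF
  omega

end Pool.Agent.Results.MP_ae7dce_co.SevenFour
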